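import Pool.Agent.PST.StmtsK2

/-!
# Squad PST, row XCM (helper6): the commutator with the lift of `r`, and the product rule
-/

noncomputable section

namespace Pool.Agent.PST.H6

theorem xcm_thm : XcmStmt := by
  intro A B X _ _ _ i c p j s r k h
  have h1 : ∀ a, a * r = r * a →
      s a * (s r + j k) - (s r + j k) * s a = j (xcm i c r k a) := by
    intro a ha
    unfold xcm
    rw [mul_add, add_mul, h.ss, h.ss, h.sj, h.js, ha, map_add, map_sub, map_sub]
    abel
  have h2 : ∀ m, j m * (s r + j k) = j (m * i r) := by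
    intro m
    rw [mul_add, h.js, h.jj, add_zero]
  have h3 : ∀ m, (s r + j k) * j m = j (i r * m) := by
    intro m
    rw [add_mul, h.sj, h.jj, add_zero]
  refine ⟨h1, ?_, ?_⟩
  · intro a b ha hb
    have hab : a * b * r = r * (a * b) := by
      rw [mul_assoc, hb, ← mul_assoc, ha, mul_assoc]
    rw [← h.j0, map_add, map_sub, map_add, map_sub, ← h1 (a * b) hab, ← h.js, ← h.sj,
      ← h1 a ha, ← h1 b hb, ← h2, ← h3]
    have h4 : s (a * b) = s a * s b - j (c (i a) (i b)) := by
      rw [h.ss, add_sub_cancel_right]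
    rw [h4]
    noncomm_ring
  · intro e f hef
    have h4 := congrArg p hef
    rw [map_mul, map_mul, map_add, map_add, h.ps, h.pj, h.ps, h.pj, add_zero, add_zero] at h4
    refine ⟨h4.symm, ?_⟩
    rw [← h.j0, map_add, map_sub, ← h1 e h4.symm, ← h2, ← h3]
    have h5 : (s e + j f) * (s r + j k) - (s r + j k) * (s e + j f) = 0 := by
      rw [hef, sub_self]
    rw [← h5]
    noncomm_ring

end Pool.Agent.PST.H6
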