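import Pool.Agent.PST.StmtsET1

/-!
# Squad PST, block ET, row GBS (helper6): a basis of the elementary abelian group `V`
-/

open scoped BigOperators

noncomputable section

namespace Pool.Agent.PST.ET.H6

open Pool.Agent.PST.ET

theorem cast_bij (ℓ : ℕ) [Fact ℓ.Prime] :
    Function.Bijective (fun x : Fin ℓ => (((x : ℕ)) : ZMod ℓ)) := by
  have : NeZero ℓ := ⟨(Fact.out : ℓ.Prime).ne_zero⟩
  constructor
  · intro x y h
    have h1 : ((x : ℕ) : ZMod ℓ) = ((y : ℕ) : ZMod ℓ) := h
    rw [ZMod.natCast_eq_natCast_iff', Nat.mod_eq_of_lt x.2, Nat.mod_eq_of_lt y.2] at h1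
    exact Fin.ext h1
  · intro z
    exact ⟨⟨z.val, z.val_lt⟩, ZMod.natCast_zmod_val z⟩

/-- the additive version -/
theorem core (ℓ r : ℕ) [Fact ℓ.Prime] (F A : Type) [Field F] [CharP F ℓ] [AddCommGroup A] [Fintype A]
    [Module (ZMod ℓ) A] (lam xx : Fin r → A → F)
    (hadd : ∀ l u v, lam l (u + v) = lam l u + lam l v)
    (hsp : ∀ m : A → F, (∀ u v, m (u + v) = m u + m v) →
      ∃ k : Fin r → F, ∀ v, m v = ∑ l, k l * lam l v)
    (hx1 : ∀ l n, ∑ v, xx l v * lam n v = if l = n then 1 else 0) :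
    ∃ (b : Fin r → A) (K : Matrix (Fin r) (Fin r) F),
      K * Matrix.of (fun l j => lam l (b j)) = 1 ∧ Matrix.of (fun l j => lam l (b j)) * K = 1 ∧
      Function.Bijective (fun e : Fin r → Fin ℓ => ∑ i, (e i : ℕ) • b i) := by
  let _ : Algebra (ZMod ℓ) F := ZMod.algebra F ℓ
  have hfin : Module.Finite (ZMod ℓ) A := Module.Finite.of_finite
  obtain ⟨m, ⟨b0⟩⟩ : ∃ m, Nonempty (Module.Basis (Fin m) (ZMod ℓ) A) :=
    ⟨_, ⟨Module.finBasis (ZMod ℓ) A⟩⟩
  let μ : Fin m → A → F := fun i v => algebraMap (ZMod ℓ) F (b0.repr v i)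
  have hμ : ∀ i u v, μ i (u + v) = μ i u + μ i v := by
    intro i u v
    change algebraMap (ZMod ℓ) F (b0.repr (u + v) i) = _
    rw [map_add, Finsupp.add_apply, map_add]
  choose K0 hK0 using fun i => hsp (μ i) (hμ i)
  -- the additive functions are linear
  have hlin : ∀ n v, lam n v = ∑ j, μ j v * lam n (b0 j) := by
    intro n v
    have h1 : lam n 0 = 0 := by
      have h2 := hadd n 0 0
      rw [add_zero] at h2
      exact left_eq_add.1 h2
    let f : A →+ F :=
      { toFun := fun x => lam n x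
        map_zero' := h1
        map_add' := fun x y => hadd n _ _ }
    let g : A →ₗ[ZMod ℓ] F := f.toZModLinearMap ℓ
    have h3 : g v = ∑ j, b0.repr v j • g (b0 j) := by
      conv_lhs => rw [← b0.sum_repr v]
      rw [map_sum]
      refine Finset.sum_congr rfl fun j _ => ?_
      rw [map_smul]
    have h4 : lam n v = g v := rfl
    rw [h4, h3]
    refine Finset.sum_congr rfl fun j _ => ?_
    rw [Algebra.smul_def]
    rfl
  let L : Matrix (Fin r) (Fin m) F := Matrix.of fun l j => lam l (b0 j)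
  have hKL : Matrix.of K0 * L = 1 := by
    ext i j
    rw [Matrix.mul_apply]
    have h1 := hK0 i (b0 j)
    have h2 : μ i (b0 j) = (1 : Matrix (Fin m) (Fin m) F) i j := by
      change algebraMap (ZMod ℓ) F (b0.repr (b0 j) i) = _
      rw [b0.repr_self, Finsupp.single_apply, Matrix.one_apply]
      by_cases h : j = i
      · rw [if_pos h, if_pos h.symm, map_one]
      · rw [if_neg h, if_neg (Ne.symm h), map_zero]
    rw [← h2, h1]
    rfl
  have hXL : (Matrix.of fun l j => ∑ v, xx l v * μ j v : Matrix (Fin r) (Fin m) F) *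
      Matrix.transpose L = 1 := by
    ext l n
    rw [Matrix.mul_apply, Matrix.one_apply, ← hx1 l n]
    have h1 : ∑ v, xx l v * lam n v =
        ∑ v, ∑ j, xx l v * (μ j v * lam n (b0 j)) := by
      refine Finset.sum_congr rfl fun v _ => ?_
      rw [hlin n v, Finset.mul_sum]
    rw [h1, Finset.sum_comm]
    refine Finset.sum_congr rfl fun j _ => ?_
    change (∑ v, xx l v * μ j v) * lam n (b0 j) = _
    rw [Finset.sum_mul]
    refine Finset.sum_congr rfl fun v _ => ?_
    ring
  have h1 : m ≤ r := by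
    have h2 := Matrix.rank_mul_le_left (Matrix.of K0) L
    rw [hKL, Matrix.rank_one, Fintype.card_fin] at h2
    have h3 := Matrix.rank_le_width (Matrix.of K0)
    exact h2.trans h3
  have h2 : r ≤ m := by
    have h3 := Matrix.rank_mul_le_left
      (Matrix.of fun l j => ∑ v, xx l v * μ j v : Matrix (Fin r) (Fin m) F) (Matrix.transpose L)
    rw [hXL, Matrix.rank_one, Fintype.card_fin] at h3
    exact h3.trans (Matrix.rank_le_width _)
  obtain rfl : m = r := le_antisymm h1 h2
  refine ⟨b0, Matrix.of K0, hKL, mul_eq_one_comm.1 hKL, ?_⟩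
  have h3 : (fun e : Fin m → Fin ℓ => ∑ i, (e i : ℕ) • b0 i) =
      (fun x => b0.equivFun.symm x) ∘
        (Equiv.piCongrRight fun _ : Fin m => Equiv.ofBijective _ (cast_bij ℓ)) := by
    funext e
    rw [Function.comp_apply, b0.equivFun_symm_apply]
    refine Finset.sum_congr rfl fun i _ => ?_
    have h4 : (Equiv.piCongrRight fun _ : Fin m => Equiv.ofBijective _ (cast_bij ℓ)) e i =
        (((e i : ℕ)) : ZMod ℓ) := rfl
    rw [h4, Nat.cast_smul_eq_nsmul]
  rw [h3]
  exact b0.equivFun.symm.bijective.comp (Equiv.bijective _)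

theorem gbs : GbsStmt := by
  intro ℓ r _ F V _ _ _ iV lam xx t hV hE
  have hex : ∀ x : Additive V, ℓ • x = 0 := fun x => by
    have h := hV (Additive.toMul x)
    rw [← ofMul_toMul x, ← ofMul_pow, h]
    rfl
  let iA : Fintype (Additive V) := iV
  have hx1 : ∀ l n, ∑ x : Additive V, xx l (Additive.toMul x) * lam n (Additive.toMul x) =
      if l = n then 1 else 0 := fun l n => hE.x1 l n
  obtain ⟨b, K, h1, h2, h3⟩ := @core ℓ r _ F (Additive V) _ _ _ iA (AddCommGroup.zmodModule hex)
    (fun l x => lam l (Additive.toMul x)) (fun l x => xx l (Additive.toMul x))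
    (fun l u v => hE.add l _ _) (fun m hm => hE.sp (fun v => m (Additive.ofMul v))
      (fun u v => hm _ _)) hx1
  exact ⟨fun j => Additive.toMul (b j), K, h1, h2, h3⟩

end Pool.Agent.PST.ET.H6
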